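import Mathlib

set_option autoImplicit false

namespace Pool.Agent.H76F

open Finset

private theorem tele (p : ℤ) (a : ℕ → ℤ) (n : ℕ) :
    (1 - p) * ∑ j ∈ range n, (∑ i ∈ range (j + 1), a i) * p ^ j =
      ∑ j ∈ range n, a j * p ^ j - (∑ i ∈ range n, a i) * p ^ n := by
  induction n with
  | zero => simp
  | succ n ih =>
    rw [sum_range_succ, mul_add, ih, sum_range_succ (fun j => a j * p ^ j), sum_range_succ a]
    ring

private theorem ser_aux (p : ℕ) (c : ℕ) (hc : 1 ≤ c) (d : ℕ) : ∃ a : ℕ → ℕ,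
    (∀ j < c, 1 ≤ a j ∧ a j ≤ c ^ d) ∧
      ((p : ℤ) ^ c) ∣ (1 - (p : ℤ)) ^ (d + 1) * (∑ j ∈ range c, (a j : ℤ) * (p : ℤ) ^ j) - 1 := by
  induction d with
  | zero =>
    refine ⟨fun _ => 1, fun j _ => ⟨le_rfl, by simp⟩, ?_⟩
    have h := mul_neg_geom_sum (p : ℤ) c
    have h2 : (1 - (p : ℤ)) ^ (0 + 1) * (∑ j ∈ range c, (((1 : ℕ) : ℤ)) * (p : ℤ) ^ j) - 1 = -(p : ℤ) ^ c := by
      simp only [Nat.cast_one, one_mul, zero_add, pow_one]
      rw [h]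
      ring
    rw [h2]
    exact (dvd_refl _).neg_right
  | succ d ih =>
    obtain ⟨a, ha, hdvd⟩ := ih
    refine ⟨fun j => ∑ i ∈ range (j + 1), a i, ?_, ?_⟩
    · intro j hj
      constructor
      · have h1 : a 0 ≤ ∑ i ∈ range (j + 1), a i :=
          single_le_sum (f := a) (fun i _ => Nat.zero_le _) (mem_range.2 (by omega))
        exact (ha 0 (by omega)).1.trans h1
      · calc ∑ i ∈ range (j + 1), a i ≤ ∑ i ∈ range (j + 1), c ^ d :=
              sum_le_sum fun i hi => (ha i (by have := mem_range.1 hi; omega)).2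
          _ = (j + 1) * c ^ d := by rw [sum_const, card_range, smul_eq_mul]
          _ ≤ c * c ^ d := Nat.mul_le_mul_right _ (by omega)
          _ = c ^ (d + 1) := by ring
    · have h := tele (p : ℤ) (fun j => (a j : ℤ)) c
      have h2 : (1 - (p : ℤ)) ^ (d + 1 + 1) *
          (∑ j ∈ range c, (((∑ i ∈ range (j + 1), a i : ℕ)) : ℤ) * (p : ℤ) ^ j) - 1 =
          ((1 - (p : ℤ)) ^ (d + 1) * (∑ j ∈ range c, (a j : ℤ) * (p : ℤ) ^ j) - 1) -
            (1 - (p : ℤ)) ^ (d + 1) * (∑ i ∈ range c, (a i : ℤ)) * (p : ℤ) ^ c := by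
        push_cast
        rw [pow_succ (1 - (p : ℤ)) (d + 1), mul_assoc, h]
        ring
      rw [h2]
      exact dvd_sub hdvd (dvd_mul_left _ _)

theorem ser (p : ℕ) (hp : 2 ≤ p) (c : ℕ) (hc : 1 ≤ c) (d : ℕ) (hd : 1 ≤ d) :
    ∃ R : ℕ, p ^ (c - 1) ≤ R ∧ R * (p - 1) ≤ c ^ (d - 1) * p ^ c ∧
      ((p : ℤ) ^ c) ∣ (1 - (p : ℤ)) ^ d * R - 1 := by
  obtain ⟨d, rfl⟩ : ∃ e, d = e + 1 := ⟨d - 1, by omega⟩
  obtain ⟨a, ha, hdvd⟩ := ser_aux p c hc d
  refine ⟨∑ j ∈ range c, a j * p ^ j, ?_, ?_, ?_⟩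
  · calc p ^ (c - 1) = 1 * p ^ (c - 1) := (one_mul _).symm
      _ ≤ a (c - 1) * p ^ (c - 1) := Nat.mul_le_mul_right _ (ha (c - 1) (by omega)).1
      _ ≤ ∑ j ∈ range c, a j * p ^ j :=
        single_le_sum (f := fun j => a j * p ^ j) (fun i _ => Nat.zero_le _) (mem_range.2 (by omega))
  · rw [Nat.add_sub_cancel]
    have h1 : ∑ j ∈ range c, a j * p ^ j ≤ c ^ d * ∑ j ∈ range c, p ^ j := by
      rw [mul_sum]
      exact sum_le_sum fun j hj => Nat.mul_le_mul_right _ (ha j (mem_range.1 hj)).2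
    have h2 : (∑ j ∈ range c, p ^ j) * (p - 1) ≤ p ^ c := by
      obtain ⟨s, rfl⟩ : ∃ s, p = s + 1 := ⟨p - 1, by omega⟩
      have h3 := geom_sum_mul_add s c
      rw [Nat.add_sub_cancel]
      omega
    calc (∑ j ∈ range c, a j * p ^ j) * (p - 1) ≤ (c ^ d * ∑ j ∈ range c, p ^ j) * (p - 1) :=
          Nat.mul_le_mul_right _ h1
      _ = c ^ d * ((∑ j ∈ range c, p ^ j) * (p - 1)) := by ring
      _ ≤ c ^ d * p ^ c := Nat.mul_le_mul_left _ h2
  · push_cast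
    exact hdvd

end Pool.Agent.H76F
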