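import Mathlib

set_option autoImplicit false

namespace Pool.Agent.H76F

private theorem pm (P : ℤ) (j : ℕ) : ∃ t : ℤ, (P - 1) ^ (2 * j + 1) = -1 + (2 * j + 1) * P + P ^ 2 * t := by
  induction j with
  | zero => exact ⟨0, by simp; ring⟩
  | succ j ih =>
    obtain ⟨t, ht⟩ := ih
    refine ⟨-1 - 2 * (2 * (j : ℤ) + 1) + (2 * (j : ℤ) + 1) * P + t * (P - 1) ^ 2, ?_⟩
    have e : (P - 1) ^ (2 * (j + 1) + 1) = (P - 1) ^ (2 * j + 1) * (P - 1) ^ 2 := by
      rw [← pow_add]; congr 1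
    rw [e, ht]
    push_cast
    ring

private theorem pp (P : ℤ) (d : ℕ) : ∃ t : ℤ, (P + 1) ^ d = 1 + d * P + P ^ 2 * t := by
  induction d with
  | zero => exact ⟨0, by simp⟩
  | succ d ih =>
    obtain ⟨t, ht⟩ := ih
    refine ⟨d + t * (P + 1), ?_⟩
    rw [pow_succ, ht]
    push_cast
    ring

private theorem split_aux {p A Q B d c : ℕ} (hp : p.Prime) (hd : 0 < d) (hA : 0 < A) (hQ : 0 < Q) (hAB : A ≤ B)
    (hQB : Q ≤ B) (hg : ∀ x : ℕ, x ∣ A → x ∣ Q → x ∣ d) (h : p ^ c ∣ A * Q) : p ^ c ≤ d * B := by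
  obtain ⟨x, y, hx, hy, hxy⟩ := (Nat.dvd_mul).1 h
  have hx' : x ∣ p ^ c := ⟨y, hxy.symm⟩
  have hy' : y ∣ p ^ c := ⟨x, by rw [mul_comm]; exact hxy.symm⟩
  obtain ⟨i, _, rfl⟩ := (Nat.dvd_prime_pow hp).1 hx'
  obtain ⟨j, _, rfl⟩ := (Nat.dvd_prime_pow hp).1 hy'
  rw [← hxy]
  rcases le_total i j with hij | hij
  · have h1 : p ^ i ∣ d := hg _ hx ((pow_dvd_pow p hij).trans hy)
    exact Nat.mul_le_mul (Nat.le_of_dvd hd h1) ((Nat.le_of_dvd hQ hy).trans hQB)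
  · have h1 : p ^ j ∣ d := hg _ ((pow_dvd_pow p hij).trans hx) hy
    rw [mul_comm (p ^ i)]
    exact Nat.mul_le_mul (Nat.le_of_dvd hd h1) ((Nat.le_of_dvd hA hx).trans hAB)

private theorem dvd_aux {A Q d : ℕ} {t : ℤ} (h : (Q : ℤ) = d + A * t) (x : ℕ) (hx : x ∣ A) (hy : x ∣ Q) : x ∣ d := by
  have h1 : (x : ℤ) ∣ (A : ℤ) * t := (Int.natCast_dvd_natCast.2 hx).mul_right t
  have h2 : (x : ℤ) ∣ (Q : ℤ) := Int.natCast_dvd_natCast.2 hy
  have h3 : (d : ℤ) = Q - A * t := by linarith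
  have h4 : (x : ℤ) ∣ (d : ℤ) := by
    rw [h3]; exact dvd_sub h2 h1
  exact Int.natCast_dvd_natCast.1 h4

theorem cof {p M d c : ℕ} (hp : p.Prime) (hd : Odd d) (hd3 : 3 ≤ d) (hM : 2 ≤ M)
    (h : p ^ c ∣ M ^ d + 1 ∨ p ^ c ∣ M ^ d - 1) : p ^ c ≤ d * (M + 1) ^ (d - 1) := by
  have hMd : M < M ^ d := by
    calc M = M ^ 1 := (pow_one M).symm
      _ < M ^ d := Nat.pow_lt_pow_right (by omega) (by omega)
  have hB : M + 1 ≤ (M + 1) ^ (d - 1) := by
    calc M + 1 = (M + 1) ^ 1 := (pow_one _).symm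
      _ ≤ (M + 1) ^ (d - 1) := Nat.pow_le_pow_right (by omega) (by omega)
  have hs : (M + 1) ^ d = (M + 1) * (M + 1) ^ (d - 1) := by
    rw [← pow_succ']; congr 1; omega
  rcases h with h | h
  · obtain ⟨Q, hQ⟩ : M + 1 ∣ M ^ d + 1 := by
      have := Odd.nat_add_dvd_pow_add_pow M 1 hd
      rwa [one_pow] at this
    have hQ0 : 0 < Q := by
      rcases Nat.eq_zero_or_pos Q with h0 | h0
      · rw [h0, mul_zero] at hQ; omega
      · exact h0
    obtain ⟨j, hj⟩ := hd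
    obtain ⟨t, ht⟩ := pm ((M : ℤ) + 1) j
    have hdj : (2 * (j : ℤ) + 1) = d := by rw [hj]; push_cast; ring
    rw [← hj, hdj, add_sub_cancel_right] at ht
    have hQZ : ((M : ℤ) + 1) * Q = M ^ d + 1 := by exact_mod_cast hQ.symm
    have hQt : (Q : ℤ) = d + ((M + 1 : ℕ) : ℤ) * t := by
      have h1 : ((M : ℤ) + 1) * Q = ((M : ℤ) + 1) * (d + ((M + 1 : ℕ) : ℤ) * t) := by
        rw [hQZ, ht]; push_cast; ring
      exact mul_left_cancel₀ (by positivity) h1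
    refine split_aux hp (by omega) (by omega) hQ0 hB ?_ (dvd_aux hQt) (hQ ▸ h)
    have h2 : (M + 1) * Q ≤ (M + 1) * (M + 1) ^ (d - 1) := by
      rw [← hQ, ← hs]
      have : M ^ d < (M + 1) ^ d := Nat.pow_lt_pow_left (by omega) (by omega)
      omega
    exact Nat.le_of_mul_le_mul_left h2 (by omega)
  · obtain ⟨x, rfl⟩ : ∃ x, M = x + 1 := ⟨M - 1, by omega⟩
    have hg : (∑ i ∈ Finset.range d, (x + 1) ^ i) * x + 1 = (x + 1) ^ d := geom_sum_mul_add x d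
    obtain ⟨Q, hQdef⟩ : ∃ Q, Q = ∑ i ∈ Finset.range d, (x + 1) ^ i := ⟨_, rfl⟩
    rw [← hQdef] at hg
    have hQ : (x + 1) ^ d - 1 = x * Q := by
      rw [← hg, mul_comm]; omega
    have hQ0 : 0 < Q := by
      rcases Nat.eq_zero_or_pos Q with h0 | h0
      · rw [h0] at hg; omega
      · exact h0
    obtain ⟨t, ht⟩ := pp (x : ℤ) d
    have hQZ : (x : ℤ) * Q = ((x : ℤ) + 1) ^ d - 1 := by
      have h1 : ((Q * x + 1 : ℕ) : ℤ) = (((x + 1) ^ d : ℕ) : ℤ) := by rw [hg]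
      push_cast at h1
      linarith
    have hQt : (Q : ℤ) = d + (x : ℤ) * t := by
      have hx0 : (x : ℤ) ≠ 0 := by
        have : 1 ≤ x := by omega
        positivity
      have h1 : (x : ℤ) * Q = (x : ℤ) * (d + (x : ℤ) * t) := by
        rw [hQZ, ht]; ring
      exact mul_left_cancel₀ hx0 h1
    refine split_aux hp (by omega) (by omega : 0 < x) hQ0 ?_ ?_ (dvd_aux hQt) (hQ ▸ h)
    · exact le_trans (by omega) hB
    · have h20 : ∀ n : ℕ, ∑ i ∈ Finset.range (n + 1), (x + 1) ^ i ≤ (x + 1 + 1) ^ n := by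
        intro n
        induction n with
        | zero => simp
        | succ n ih =>
          rw [Finset.sum_range_succ]
          have h21 : (x + 1) ^ (n + 1) ≤ (x + 1) * (x + 1 + 1) ^ n := by
            rw [pow_succ']
            exact Nat.mul_le_mul_left _ (Nat.pow_le_pow_left (by omega) n)
          have h22 : (x + 1 + 1) ^ (n + 1) = (x + 1 + 1) ^ n + (x + 1) * (x + 1 + 1) ^ n := by ring
          omega
      have h21 := h20 (d - 1)
      have h22 : d - 1 + 1 = d := by omega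
      rw [h22, ← hQdef] at h21
      exact h21

end Pool.Agent.H76F
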