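import Mathlib
import Pool.Agent.H76F.S
import Pool.Agent.H76F.T

/-! Odd perfect numbers: a sharper local lemma at one prime. -/

set_option autoImplicit false

namespace Pool.Agent.H76F

private theorem dvd_sub_right_iff {p x y : ℤ} (h1 : p ∣ x - y) (h2 : p ∣ y) : p ∣ x := by
  have := dvd_add h1 h2
  simpa using this

/-- primes of `σ (q ^ k)`: the prime power is bounded by a power of the cofactor -/
theorem L4 {p q K c a b μ C P0 : ℕ} (hP0 : P0 = 2 * (3 * K) ^ (K - 1) + 1)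
    (hC : C = K ^ 2 * P0 ^ (2 * (K - 1))) (hp : p.Prime) (hp2 : p ≠ 2) (hK3 : 3 ≤ K) (hKo : Odd K) (hca : c ≤ 2 * a)
    (hQ : p ^ c ∣ q ^ (2 * K) - 1) (hq : 1 ≤ q) (hc : 1 ≤ c)
    (hg : (p - 1) * μ * q ^ b + 1 = p ^ (2 * a + 1)) (hμo : Odd μ) (hμ : 2 ≤ μ) :
    (p ^ c) ^ 2 ≤ C * μ ^ (3 * K) := by
  have hK : 1 ≤ K := by omega
  have hP1 : 1 ≤ P0 := by omega
  have hC1 : 1 ≤ C := by
    rw [hC]
    exact Nat.mul_pos (by positivity) (pow_pos (by omega) _)
  have hKC : K ^ 2 ≤ C := by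
    rw [hC]
    exact Nat.le_mul_of_pos_right _ (pow_pos (by omega) _)
  have hp3 : 3 ≤ p := by
    have := hp.two_le
    omega
  have hpodd : ¬ 2 ∣ p := fun h => hp2 ((Nat.prime_dvd_prime_iff_eq Nat.prime_two hp).1 h).symm
  set M := (p - 1) * μ with hM
  have hM1 : 1 ≤ M := Nat.mul_pos (by omega) (by omega)
  -- `M ^ (2 K) = 1` modulo `p ^ c`
  have h1 : ((q : ZMod (p ^ c)) ^ (2 * K)) = 1 := by
    have h2 : ((q ^ (2 * K) - 1 : ℕ) : ZMod (p ^ c)) = 0 := (ZMod.natCast_eq_zero_iff _ _).2 hQ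
    rw [Nat.cast_sub (Nat.one_le_pow _ _ hq)] at h2
    push_cast at h2
    exact sub_eq_zero.1 h2
  have h2 : ((M : ZMod (p ^ c)) * (q : ZMod (p ^ c)) ^ b) = -1 := by
    have h3 : ((M * q ^ b + 1 : ℕ) : ZMod (p ^ c)) = 0 := by
      rw [hM, hg]
      exact (ZMod.natCast_eq_zero_iff _ _).2 (pow_dvd_pow p (by omega))
    push_cast at h3
    exact eq_neg_of_add_eq_zero_left h3
  have h4 : ((M : ZMod (p ^ c)) ^ (2 * K)) = 1 := by
    have h5 : ((M : ZMod (p ^ c)) * (q : ZMod (p ^ c)) ^ b) ^ (2 * K) = 1 := by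
      rw [h2, pow_mul]
      simp
    rw [mul_pow, ← pow_mul (q : ZMod (p ^ c)), mul_comm b, pow_mul (q : ZMod (p ^ c)), h1, one_pow,
      mul_one] at h5
    exact h5
  have h6 : (p ^ c : ℕ) ∣ (M ^ K - 1) * (M ^ K + 1) := by
    have hMK : 1 ≤ M ^ K := Nat.one_le_pow _ _ hM1
    have h7 : ((M ^ K - 1) * (M ^ K + 1)) = M ^ (2 * K) - 1 := by
      rw [mul_comm 2 K, pow_mul, sq]
      have := Nat.mul_self_sub_mul_self_eq (M ^ K) 1
      rw [one_mul] at this
      rw [this, mul_comm]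
    rw [h7, ← ZMod.natCast_eq_zero_iff, Nat.cast_sub (Nat.one_le_pow _ _ hM1)]
    push_cast
    rw [h4, sub_self]
  have hMK : 1 ≤ M ^ K := Nat.one_le_pow _ _ hM1
  have hM2 : 2 ≤ M ^ K := by
    have : 2 ≤ M := by
      have : 2 * 2 ≤ (p - 1) * μ := Nat.mul_le_mul (by omega) hμ
      omega
    calc 2 ≤ M := this
      _ = M ^ 1 := (pow_one M).symm
      _ ≤ M ^ K := Nat.pow_le_pow_right hM1 hK
  have h8 : p ^ c ≤ M ^ K + 1 := by
    by_cases h9 : p ∣ M ^ K + 1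
    · have h10 : ¬ p ∣ M ^ K - 1 := by
        intro h11
        have h12 : p ∣ (M ^ K + 1) - (M ^ K - 1) := Nat.dvd_sub h9 h11
        have h13 : (M ^ K + 1) - (M ^ K - 1) = 2 := by omega
        rw [h13] at h12
        exact absurd (Nat.le_of_dvd (by norm_num) h12) (by omega)
      have h14 : Nat.Coprime (p ^ c) (M ^ K - 1) :=
        ((Nat.Prime.coprime_iff_not_dvd hp).2 h10).pow_left _
      exact Nat.le_of_dvd (by omega) (h14.dvd_of_dvd_mul_left h6)
    · have h14 : Nat.Coprime (p ^ c) (M ^ K + 1) :=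
        ((Nat.Prime.coprime_iff_not_dvd hp).2 h9).pow_left _
      have := Nat.le_of_dvd (by omega) (h14.dvd_of_dvd_mul_right h6)
      omega
  -- `p ≤ μ ^ K`
  have hpp : p ∣ p ^ c := dvd_pow_self p (by omega)
  have h15 : p ∣ (μ ^ K - 1) * (μ ^ K + 1) := by
    have hμK : 1 ≤ μ ^ K := Nat.one_le_pow _ _ (by omega)
    have h7 : ((μ ^ K - 1) * (μ ^ K + 1)) = μ ^ (2 * K) - 1 := by
      rw [mul_comm 2 K, pow_mul, sq]
      have := Nat.mul_self_sub_mul_self_eq (μ ^ K) 1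
      rw [one_mul] at this
      rw [this, mul_comm]
    rw [h7, ← ZMod.natCast_eq_zero_iff, Nat.cast_sub (Nat.one_le_pow _ _ (by omega))]
    push_cast
    have h16 : ((M : ZMod p) ^ (2 * K)) = 1 := by
      have h17 : ((M ^ (2 * K) - 1 : ℕ) : ZMod p) = 0 := by
        rw [ZMod.natCast_eq_zero_iff]
        refine hpp.trans ?_
        rw [← ZMod.natCast_eq_zero_iff, Nat.cast_sub (Nat.one_le_pow _ _ hM1)]
        push_cast
        rw [h4, sub_self]
      rw [Nat.cast_sub (Nat.one_le_pow _ _ hM1)] at h17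
      push_cast at h17
      exact sub_eq_zero.1 h17
    have h18 : (M : ZMod p) = - (μ : ZMod p) := by
      rw [hM]
      push_cast
      rw [Nat.cast_sub (by omega)]
      simp
    rw [h18, pow_mul, neg_sq, ← pow_mul] at h16
    rw [h16, sub_self]
  have hμK2 : 2 ≤ μ ^ K := by
    calc 2 ≤ μ := hμ
      _ = μ ^ 1 := (pow_one μ).symm
      _ ≤ μ ^ K := Nat.pow_le_pow_right (by omega) hK
  have h19 : p ≤ μ ^ K := by
    rcases (Nat.Prime.dvd_mul hp).1 h15 with h | h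
    · have := Nat.le_of_dvd (by omega) h
      omega
    · have h20 : 2 ∣ μ ^ K + 1 := by
        have : Odd (μ ^ K) := hμo.pow
        obtain ⟨y, hy⟩ := this
        exact ⟨y + 1, by omega⟩
      have h21 : Nat.Coprime 2 p := (Nat.Prime.coprime_iff_not_dvd Nat.prime_two).2 hpodd
      have h22 := Nat.le_of_dvd (by omega) (h21.mul_dvd_of_dvd_of_dvd h20 h)
      omega
  have hμ3 : 3 ≤ μ := by
    obtain ⟨y, hy⟩ := hμo
    omega
  rcases Nat.lt_or_ge c 2 with hc2 | hc2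
  · have hc1' : c = 1 := by omega
    rw [hc1', pow_one]
    calc p ^ 2 ≤ (μ ^ K) ^ 2 := Nat.pow_le_pow_left h19 2
      _ = μ ^ (K * 2) := by rw [pow_mul]
      _ ≤ μ ^ (3 * K) := Nat.pow_le_pow_right (by omega) (by omega)
      _ ≤ C * μ ^ (3 * K) := Nat.le_mul_of_pos_left _ hC1
  have hsq : p ^ 2 ≤ μ ^ (K + 1) := by
    -- the sign
    obtain ⟨σ, hσ, hdiv⟩ : ∃ σ : ℤ, (σ = 1 ∨ σ = -1) ∧ ((p : ℤ) ^ 2) ∣ (M : ℤ) ^ K + σ := by
      by_cases h9 : p ∣ M ^ K + 1
      · have h10 : ¬ p ∣ M ^ K - 1 := by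
          intro h11
          have h12 : p ∣ (M ^ K + 1) - (M ^ K - 1) := Nat.dvd_sub h9 h11
          have h13 : (M ^ K + 1) - (M ^ K - 1) = 2 := by omega
          rw [h13] at h12
          exact absurd (Nat.le_of_dvd (by norm_num) h12) (by omega)
        have h14 : Nat.Coprime (p ^ c) (M ^ K - 1) :=
          ((Nat.Prime.coprime_iff_not_dvd hp).2 h10).pow_left _
        have h15 : p ^ c ∣ M ^ K + 1 := h14.dvd_of_dvd_mul_left h6
        have h16 : p ^ 2 ∣ M ^ K + 1 := (pow_dvd_pow p hc2).trans h15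
        refine ⟨1, Or.inl rfl, ?_⟩
        exact_mod_cast h16
      · have h14 : Nat.Coprime (p ^ c) (M ^ K + 1) :=
          ((Nat.Prime.coprime_iff_not_dvd hp).2 h9).pow_left _
        have h15 : p ^ c ∣ M ^ K - 1 := h14.dvd_of_dvd_mul_right h6
        have h16 : p ^ 2 ∣ M ^ K - 1 := (pow_dvd_pow p hc2).trans h15
        refine ⟨-1, Or.inr rfl, ?_⟩
        have h17 : ((M ^ K - 1 : ℕ) : ℤ) = (M : ℤ) ^ K + (-1) := by
          rw [Nat.cast_sub hMK]
          push_cast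
          ring
        rw [← h17]
        exact_mod_cast h16
    have hbin : ∀ n : ℕ, ((p : ℤ) ^ 2) ∣ (1 - (p : ℤ)) ^ n - (1 - n * (p : ℤ)) := by
      intro n
      induction n with
      | zero => simp
      | succ n ih =>
        have e1 : (1 - (p : ℤ)) ^ (n + 1) - (1 - ((n + 1 : ℕ) : ℤ) * (p : ℤ)) =
            (1 - (p : ℤ)) * ((1 - (p : ℤ)) ^ n - (1 - n * (p : ℤ))) + (p : ℤ) ^ 2 * n := by
          push_cast
          ring
        rw [e1]
        exact dvd_add (Dvd.dvd.mul_left ih _) (Dvd.intro _ rfl)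
    have hMz : (M : ℤ) = ((p : ℤ) - 1) * μ := by
      rw [hM]
      push_cast [Nat.cast_sub (show 1 ≤ p by omega)]
      ring
    have hMK' : (M : ℤ) ^ K = -((1 - (p : ℤ)) ^ K * (μ : ℤ) ^ K) := by
      rw [hMz, mul_pow]
      have : ((p : ℤ) - 1) ^ K = -((1 - (p : ℤ)) ^ K) := by
        rw [← hKo.neg_pow]
        congr 1
        ring
      rw [this]
      ring
    have hd1 : ((p : ℤ) ^ 2) ∣ ((μ : ℤ) ^ K - σ) - K * p * (μ : ℤ) ^ K := by
      have e1 : (((μ : ℤ) ^ K - σ) - K * p * (μ : ℤ) ^ K) =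
          -(((M : ℤ) ^ K + σ) + ((1 - (p : ℤ)) ^ K - (1 - K * (p : ℤ))) * (μ : ℤ) ^ K) := by
        rw [hMK']
        ring
      rw [e1, dvd_neg]
      exact dvd_add hdiv (Dvd.dvd.mul_right (hbin K) _)
    have hp1 : (p : ℤ) ∣ (μ : ℤ) ^ K - σ := by
      have e1 : (p : ℤ) ∣ ((μ : ℤ) ^ K - σ) - K * p * (μ : ℤ) ^ K :=
        (Dvd.intro_left _ (by ring : (p : ℤ) * p = (p : ℤ) ^ 2)).trans hd1
      have e2 : (p : ℤ) ∣ K * p * (μ : ℤ) ^ K := ⟨K * (μ : ℤ) ^ K, by ring⟩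
      exact (dvd_sub_right_iff e1 e2)
    obtain ⟨s, hs⟩ := hp1
    have hp0 : (0 : ℤ) < p := by exact_mod_cast hp.pos
    have hd2 : (p : ℤ) ∣ s - K * σ := by
      rw [hs] at hd1
      have e1 : (p : ℤ) * s - K * p * (μ : ℤ) ^ K = p * (s - K * (μ : ℤ) ^ K) := by ring
      rw [e1, sq] at hd1
      have e2 : (p : ℤ) ∣ s - K * (μ : ℤ) ^ K := Int.dvd_of_mul_dvd_mul_left hp0.ne' hd1
      have e3 : s - K * σ = (s - K * (μ : ℤ) ^ K) + p * (K * s) := by
        have : (μ : ℤ) ^ K = p * s + σ := by linarith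
        rw [this]
        ring
      rw [e3]
      exact dvd_add e2 (Dvd.intro _ rfl)
    have hsne : s - K * σ ≠ 0 := by
      intro h0
      have e1 : s = K * σ := by linarith
      have h2 : Odd ((p : ℤ) * s) := by
        rw [e1]
        have o1 : Odd (p : ℤ) := by
          have : Odd p := hp.odd_of_ne_two hp2
          exact_mod_cast this
        have o2 : Odd (K : ℤ) := by exact_mod_cast hKo
        have o3 : Odd σ := by
          rcases hσ with h | h
          · rw [h]; exact odd_one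
          · rw [h]; exact ⟨-1, by norm_num⟩
        exact o1.mul (o2.mul o3)
      have h3 : Even ((μ : ℤ) ^ K - σ) := by
        have o1 : Odd ((μ : ℤ) ^ K) := by
          have : Odd (μ ^ K) := hμo.pow
          exact_mod_cast this
        have o3 : Odd σ := by
          rcases hσ with h | h
          · rw [h]; exact odd_one
          · rw [h]; exact ⟨-1, by norm_num⟩
        exact o1.sub_odd o3
      rw [hs] at h3
      exact (Int.not_even_iff_odd.2 h2) h3
    have hμKz : (2 : ℤ) ≤ (μ : ℤ) ^ K := by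
      have : 2 ≤ μ ^ K := by
        calc 2 ≤ μ := hμ
          _ = μ ^ 1 := (pow_one μ).symm
          _ ≤ μ ^ K := Nat.pow_le_pow_right (by omega) hK
      exact_mod_cast this
    have hs0 : 0 ≤ s := by
      by_contra hcon
      push Not at hcon
      have : (p : ℤ) * s < 0 := mul_neg_of_pos_of_neg hp0 hcon
      rcases hσ with h | h <;> rw [h] at hs <;> linarith
    have habs : (p : ℤ) ≤ |s - K * σ| :=
      Int.le_of_dvd (abs_pos.2 hsne) ((dvd_abs _ _).2 hd2)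
    have hKz : (0 : ℤ) ≤ K := by positivity
    have hle : (p : ℤ) ≤ s + K := by
      refine habs.trans ?_
      rw [abs_le]
      rcases hσ with h | h <;> rw [h] <;> constructor <;> linarith
    have hps : (p : ℤ) * s ≤ (μ : ℤ) ^ K + 1 := by
      rw [← hs]
      rcases hσ with h | h <;> rw [h] <;> linarith
    rcases Nat.lt_or_ge p (2 * K) with hlt | hge
    · have e1 : p ^ 2 ≤ (2 * K) ^ 2 := Nat.pow_le_pow_left hlt.le 2
      have e2 : ∀ n : ℕ, (2 * (n + 3)) ^ 2 ≤ 3 ^ (n + 4) := by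
        intro n
        induction n with
        | zero => norm_num
        | succ n ih =>
          have : 3 ^ (n + 1 + 4) = 3 * 3 ^ (n + 4) := by ring
          rw [this]
          have h : (2 * (n + 1 + 3)) ^ 2 ≤ 3 * (2 * (n + 3)) ^ 2 := by
            nlinarith [Nat.zero_le (n * n), Nat.zero_le n]
          omega
      have e3 := e2 (K - 3)
      have e4 : K - 3 + 3 = K := by omega
      have e5 : K - 3 + 4 = K + 1 := by omega
      rw [e4, e5] at e3
      exact e1.trans (e3.trans (Nat.pow_le_pow_left hμ3 _))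
    · have e1 : (p : ℤ) ^ 2 ≤ 3 * (μ : ℤ) ^ K := by
        have e2 : (2 * K : ℤ) ≤ p := by exact_mod_cast hge
        have e3 : (p : ℤ) * (p - K) ≤ p * s := mul_le_mul_of_nonneg_left (by linarith) hp0.le
        nlinarith
      have e2 : p ^ 2 ≤ 3 * μ ^ K := by exact_mod_cast e1
      calc p ^ 2 ≤ 3 * μ ^ K := e2
        _ ≤ μ * μ ^ K := Nat.mul_le_mul_right _ hμ3
        _ = μ ^ (K + 1) := by ring
  have hpμM : M + μ = p * μ := by
    rw [hM]
    obtain ⟨t, ht⟩ : ∃ t, p = t + 1 := ⟨p - 1, by omega⟩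
    subst ht
    simp only [Nat.add_sub_cancel]
    rw [add_mul, one_mul]
  have hMge : 2 ≤ M := by
    have : 2 * 2 ≤ (p - 1) * μ := Nat.mul_le_mul (by omega) hμ
    omega
  -- `p ^ c` divides one of the two factors
  have hor : p ^ c ∣ M ^ K + 1 ∨ p ^ c ∣ M ^ K - 1 := by
    by_cases h9 : p ∣ M ^ K + 1
    · have h10 : ¬ p ∣ M ^ K - 1 := by
        intro h11
        have h12 : p ∣ (M ^ K + 1) - (M ^ K - 1) := Nat.dvd_sub h9 h11
        have h13 : (M ^ K + 1) - (M ^ K - 1) = 2 := by omega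
        rw [h13] at h12
        exact absurd (Nat.le_of_dvd (by norm_num) h12) (by omega)
      have h14 : Nat.Coprime (p ^ c) (M ^ K - 1) :=
        ((Nat.Prime.coprime_iff_not_dvd hp).2 h10).pow_left _
      exact Or.inl (h14.dvd_of_dvd_mul_left h6)
    · have h14 : Nat.Coprime (p ^ c) (M ^ K + 1) :=
        ((Nat.Prime.coprime_iff_not_dvd hp).2 h9).pow_left _
      exact Or.inr (h14.dvd_of_dvd_mul_right h6)
  have hT0 : p ^ c ≤ K * (p * μ) ^ (K - 1) :=
    (cof hp hKo hK3 hMge hor).trans (Nat.mul_le_mul_left _ (Nat.pow_le_pow_left (by omega) _))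
  have hT2 : (p ^ c) ^ 2 ≤ K ^ 2 * (p ^ 2) ^ (K - 1) * μ ^ (2 * (K - 1)) := by
    calc (p ^ c) ^ 2 ≤ (K * (p * μ) ^ (K - 1)) ^ 2 := Nat.pow_le_pow_left hT0 2
      _ = K ^ 2 * (p ^ 2) ^ (K - 1) * μ ^ (2 * (K - 1)) := by
        rw [mul_pow, mul_pow, mul_pow, ← pow_mul, ← pow_mul, ← pow_mul, mul_comm (K - 1) 2, mul_assoc]
  rcases Nat.lt_or_ge P0 p with hbig | hsmall
  swap
  · -- small primes
    have e1 : (p ^ 2) ^ (K - 1) ≤ P0 ^ (2 * (K - 1)) := by
      rw [← pow_mul]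
      exact Nat.pow_le_pow_left hsmall _
    calc (p ^ c) ^ 2 ≤ K ^ 2 * (p ^ 2) ^ (K - 1) * μ ^ (2 * (K - 1)) := hT2
      _ ≤ C * μ ^ (2 * (K - 1)) := by
        rw [hC]
        exact Nat.mul_le_mul_right _ (Nat.mul_le_mul_left _ e1)
      _ ≤ C * μ ^ (3 * K) := Nat.mul_le_mul_left _ (Nat.pow_le_pow_right (by omega) (by omega))
  rcases Nat.lt_or_ge μ (p ^ 2) with hμp | hμp
  swap
  · -- `p ^ 2 ≤ μ`
    have e1 : (p ^ 2) ^ (K - 1) ≤ μ ^ (K - 1) := Nat.pow_le_pow_left hμp _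
    calc (p ^ c) ^ 2 ≤ K ^ 2 * (p ^ 2) ^ (K - 1) * μ ^ (2 * (K - 1)) := hT2
      _ ≤ K ^ 2 * μ ^ (K - 1) * μ ^ (2 * (K - 1)) :=
        Nat.mul_le_mul_right _ (Nat.mul_le_mul_left _ e1)
      _ = K ^ 2 * μ ^ (K - 1 + 2 * (K - 1)) := by rw [mul_assoc, ← pow_add]
      _ ≤ C * μ ^ (3 * K) := Nat.mul_le_mul hKC (Nat.pow_le_pow_right (by omega) (by omega))
  -- `c < 3 K`
  have hP0K : K ≤ P0 := by
    have : K ≤ (3 * K) ^ (K - 1) := by
      calc K ≤ 3 * K := by omega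
        _ = (3 * K) ^ 1 := (pow_one _).symm
        _ ≤ (3 * K) ^ (K - 1) := Nat.pow_le_pow_right (by omega) (by omega)
    omega
  have hc3 : c < 3 * K := by
    have e1 : p ^ c < p ^ (3 * K) := by
      have e2 : (p * μ) ^ (K - 1) ≤ (p ^ 3) ^ (K - 1) := by
        apply Nat.pow_le_pow_left
        calc p * μ ≤ p * p ^ 2 := Nat.mul_le_mul_left _ hμp.le
          _ = p ^ 3 := by ring
      calc p ^ c ≤ K * (p * μ) ^ (K - 1) := hT0
        _ ≤ p * (p ^ 3) ^ (K - 1) := Nat.mul_le_mul (by omega) e2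
        _ = p ^ (3 * (K - 1) + 1) := by rw [← pow_mul, pow_succ']
        _ < p ^ (3 * K) := Nat.pow_lt_pow_right (by omega) (by omega)
    exact (Nat.pow_lt_pow_iff_right (by omega)).1 e1
  obtain ⟨R, hR1, hR2, hR3⟩ := ser p (by omega) c (by omega) K hK
  have hR4 : 2 * R ≤ p ^ c := by
    have e1 : 2 * c ^ (K - 1) ≤ p - 1 := by
      have : c ^ (K - 1) ≤ (3 * K) ^ (K - 1) := Nat.pow_le_pow_left hc3.le _
      omega
    have e2 : c ^ (K - 1) * (2 * R) ≤ c ^ (K - 1) * p ^ c := by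
      calc c ^ (K - 1) * (2 * R) = R * (2 * c ^ (K - 1)) := by ring
        _ ≤ R * (p - 1) := Nat.mul_le_mul_left _ e1
        _ ≤ c ^ (K - 1) * p ^ c := hR2
    exact Nat.le_of_mul_le_mul_left e2 (pow_pos (by omega) _)
  have hA : p ^ (c - 1) ≤ μ ^ K := by
    have hp0 : (0 : ℤ) < p := by exact_mod_cast hp.pos
    obtain ⟨σ, hσ, hdiv⟩ : ∃ σ : ℤ, (σ = 1 ∨ σ = -1) ∧ ((p : ℤ) ^ c) ∣ (M : ℤ) ^ K + σ := by
      rcases hor with h | h
      · refine ⟨1, Or.inl rfl, ?_⟩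
        exact_mod_cast h
      · refine ⟨-1, Or.inr rfl, ?_⟩
        have h17 : ((M ^ K - 1 : ℕ) : ℤ) = (M : ℤ) ^ K + (-1) := by
          rw [Nat.cast_sub hMK]
          push_cast
          ring
        rw [← h17]
        exact_mod_cast h
    have hMz : (M : ℤ) = ((p : ℤ) - 1) * μ := by
      rw [hM]
      push_cast [Nat.cast_sub (show 1 ≤ p by omega)]
      ring
    have hMK' : (M : ℤ) ^ K = -((1 - (p : ℤ)) ^ K * (μ : ℤ) ^ K) := by
      rw [hMz, mul_pow]
      have : ((p : ℤ) - 1) ^ K = -((1 - (p : ℤ)) ^ K) := by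
        rw [← hKo.neg_pow]
        congr 1
        ring
      rw [this]
      ring
    have hd1 : ((p : ℤ) ^ c) ∣ (μ : ℤ) ^ K - σ * R := by
      have e1 : (μ : ℤ) ^ K - σ * R =
          -(((M : ℤ) ^ K + σ) * R + ((1 - (p : ℤ)) ^ K * R - 1) * (μ : ℤ) ^ K) := by
        rw [hMK']
        ring
      rw [e1, dvd_neg]
      exact dvd_add (Dvd.dvd.mul_right hdiv _) (Dvd.dvd.mul_right hR3 _)
    have hR1z : ((p : ℤ) ^ (c - 1)) ≤ R := by exact_mod_cast hR1
    have hR4z : 2 * (R : ℤ) ≤ (p : ℤ) ^ c := by exact_mod_cast hR4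
    have hμz : (0 : ℤ) < (μ : ℤ) ^ K := by positivity
    have hpc : (p : ℤ) ^ c = p * (p : ℤ) ^ (c - 1) := by
      rw [← pow_succ']
      congr 1
      omega
    have hppos : (0 : ℤ) < (p : ℤ) ^ (c - 1) := by positivity
    have hgoal : ((p : ℤ) ^ (c - 1)) ≤ (μ : ℤ) ^ K := by
      rcases hσ with h | h
      · rw [h, one_mul] at hd1
        by_contra hcon
        push Not at hcon
        have e1 : (0 : ℤ) < R - (μ : ℤ) ^ K := by linarith
        have e2 : ((p : ℤ) ^ c) ∣ R - (μ : ℤ) ^ K := by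
          have := (dvd_neg (a := ((p : ℤ) ^ c))).2 hd1
          have e3 : -((μ : ℤ) ^ K - R) = R - (μ : ℤ) ^ K := by ring
          rwa [e3] at this
        have e3 := Int.le_of_dvd e1 e2
        linarith
      · rw [h] at hd1
        have e1 : (μ : ℤ) ^ K - (-1) * R = (μ : ℤ) ^ K + R := by ring
        rw [e1] at hd1
        have e2 := Int.le_of_dvd (by positivity) hd1
        have e3 : (3 : ℤ) ≤ p := by exact_mod_cast hp3
        nlinarith
    exact_mod_cast hgoal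
  have hTA : p ^ c ≤ p * μ ^ K := by
    calc p ^ c = p * p ^ (c - 1) := by
          rw [← pow_succ']
          congr 1
          omega
      _ ≤ p * μ ^ K := Nat.mul_le_mul_left _ hA
  rcases Nat.lt_or_ge c 3 with hc4 | hc4
  · -- `c = 2`
    have hc5 : c = 2 := by omega
    rw [hc5]
    calc (p ^ 2) ^ 2 ≤ (μ ^ (K + 1)) ^ 2 := Nat.pow_le_pow_left hsq 2
      _ = μ ^ ((K + 1) * 2) := by rw [← pow_mul]
      _ ≤ μ ^ (3 * K) := Nat.pow_le_pow_right (by omega) (by omega)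
      _ ≤ C * μ ^ (3 * K) := Nat.le_mul_of_pos_left _ hC1
  have hp2K : p ^ 2 ≤ μ ^ K := (Nat.pow_le_pow_right hp.pos (by omega)).trans hA
  calc (p ^ c) ^ 2 ≤ (p * μ ^ K) ^ 2 := Nat.pow_le_pow_left hTA 2
    _ = p ^ 2 * (μ ^ K) ^ 2 := mul_pow _ _ _
    _ ≤ μ ^ K * (μ ^ K) ^ 2 := Nat.mul_le_mul_right _ hp2K
    _ = μ ^ (3 * K) := by rw [← pow_mul, ← pow_add]; congr 1; ring
    _ ≤ C * μ ^ (3 * K) := Nat.le_mul_of_pos_left _ hC1

end Pool.Agent.H76F
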