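import Pool.Agent.H76D.C
import Pool.Agent.H76F.A

/-! Odd perfect numbers: the bound with a divisor `d` of `(k + 1) / 2`. -/

set_option autoImplicit false

namespace Pool.Agent.H76F

open ArithmeticFunction Finset Pool.Agent.H76D

/-- the bound for `m` -/
theorem m_boundF {q k n K m d C P0 : ℕ} (hP0 : P0 = 2 * (3 * d) ^ (d - 1) + 1)
    (hC : C = d ^ 2 * P0 ^ (2 * (d - 1))) (hd3 : 3 ≤ d) (hdo : Odd d) (hdK : d ∣ K) (hq : q.Prime) (hcop : Nat.Coprime q n) (hq4 : q % 4 = 1)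
    (hk : k + 1 = 2 * K) (hK : 1 ≤ K) (hn : Odd n) (hm0 : m ≠ 0)
    (hs : sigma 1 (n ^ 2) = q ^ k * m) (hW : sigma 1 (q ^ k) * m = 2 * n ^ 2)
    (hX : ¬ 4 * q ^ 3 ≤ 9 * K ^ 2 * m ^ 2) :
    q ^ (3 * d + 2 * (d - 1) * 2) ≤ d ^ 2 * C ^ k * (2 ^ (k + 1) * m) ^ (3 * d) := by
  classical
  have hC1 : 1 ≤ C := by
    rw [hC]
    exact Nat.mul_pos (by positivity) (pow_pos (by omega) _)
  have hq1 := hq.one_lt
  have hq5 : 5 ≤ q := by omega
  have hn0 : n ≠ 0 := by rintro rfl; simp at hn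
  have hW0 : sigma 1 (q ^ k) ≠ 0 := W_ne hq
  set W := sigma 1 (q ^ k) with hWdef
  have hK0 : K ≠ 0 := by omega
  have hqW : q + 1 ∣ W := dvd_sig hq hk
  obtain ⟨l, hl⟩ : ∃ l, l + 1 = 2 * d := ⟨2 * d - 1, by omega⟩
  have hd0 : d ≠ 0 := by omega
  have hV0 : sigma 1 (q ^ l) ≠ 0 := W_ne hq
  set V := sigma 1 (q ^ l) with hVdef
  have hVW : V ∣ W := by
    have e1 : V * (q - 1) = q ^ (2 * d) - 1 := W_eq hq hl
    have e2 : W * (q - 1) = q ^ (2 * K) - 1 := W_eq hq hk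
    obtain ⟨j, hj⟩ := hdK
    have e3 := Nat.sub_dvd_pow_sub_pow (q ^ (2 * d)) 1 j
    rw [one_pow, ← pow_mul, mul_assoc, ← hj, ← e1, ← e2] at e3
    exact Nat.dvd_of_mul_dvd_mul_right (by omega) e3
  have h2q : 2 ∣ q + 1 := by omega
  have h2W : 2 ∣ W := h2q.trans hqW
  have hn2o : ¬ 2 ∣ n := by
    intro h
    obtain ⟨y, hy⟩ := hn
    omega
  have hn2o' : ¬ 2 ∣ n ^ 2 := fun h => hn2o (Nat.prime_two.dvd_of_dvd_pow h)
  have hmn : m ∣ n ^ 2 := by
    obtain ⟨w, hw⟩ := h2W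
    refine ⟨w, ?_⟩
    rw [hw] at hW
    nlinarith
  have hqm : ¬ q ∣ m := by
    intro h
    have h1 : q ∣ n := hq.dvd_of_dvd_pow (h.trans hmn)
    exact ((Nat.Prime.coprime_iff_not_dvd hq).1 hcop) h1
  set S : ℕ → ℕ := fun p => sigma 1 (p ^ (2 * padicValNat p n)) with hS
  set b : ℕ → ℕ := fun p => padicValNat q (S p) with hb
  set μ : ℕ → ℕ := fun p => S p / q ^ b p with hμ
  have hqF : Fact q.Prime := ⟨hq⟩
  have hprime : ∀ p ∈ n.primeFactors, p.Prime := fun p hp => Nat.prime_of_mem_primeFactors hp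
  have hS0 : ∀ p ∈ n.primeFactors, S p ≠ 0 := fun p hp => W_ne (hprime p hp)
  have hSe : ∀ p ∈ n.primeFactors, S p = q ^ b p * μ p := by
    intro p _
    rw [hμ]
    exact (Nat.mul_div_cancel' pow_padicValNat_dvd).symm
  have hμ0 : ∀ p ∈ n.primeFactors, μ p ≠ 0 := by
    intro p hp h
    have := hSe p hp
    rw [h, mul_zero] at this
    exact hS0 p hp this
  have hqμ : ∀ p ∈ n.primeFactors, ¬ q ∣ μ p := by
    intro p hp h
    obtain ⟨w, hw⟩ := h
    have h1 : q ^ (b p + 1) ∣ S p := by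
      rw [hSe p hp, hw]
      exact ⟨w, by ring⟩
    have h2 := (padicValNat_dvd_iff_le (hS0 p hp)).1 h1
    have h3 : b p = padicValNat q (S p) := rfl
    omega
  have hprod : q ^ (∑ p ∈ n.primeFactors, b p) * ∏ p ∈ n.primeFactors, μ p = q ^ k * m := by
    rw [← hs, sigma_sq hn0, ← prod_pow_eq_pow_sum, ← prod_mul_distrib]
    exact prod_congr rfl (fun p hp => (hSe p hp).symm)
  have hqP : ¬ q ∣ ∏ p ∈ n.primeFactors, μ p := by
    intro h
    obtain ⟨p, hp, h1⟩ := (Prime.dvd_finsetProd_iff hq.prime _).1 h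
    exact hqμ p hp h1
  obtain ⟨hbsum, hμprod⟩ := pow_split hq hqP hqm hprod
  have hqodd : Odd q := by
    rw [Nat.odd_iff]; omega
  have hmodd : Odd m := by
    rw [← Nat.not_even_iff_odd, even_iff_two_dvd]
    exact fun h => hn2o' (h.trans hmn)
  have hμodd : ∀ p ∈ n.primeFactors, Odd (μ p) := by
    intro p hp
    have h1 : μ p ∣ m := by
      rw [← hμprod]
      exact dvd_prod_of_mem μ hp
    exact Odd.of_dvd_nat hmodd h1
  -- local data
  have hcop2 : ∀ p ∈ n.primeFactors, Nat.Coprime (μ p) p := by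
    intro p hp
    have h1 : Nat.Coprime (S p) p := coprime_sig_self (hprime p hp) _
    rw [hSe p hp] at h1
    exact Nat.Coprime.coprime_mul_left h1
  have hne2 : ∀ p ∈ n.primeFactors, p ≠ 2 := by
    rintro p hp rfl
    exact hn2o (Nat.dvd_of_mem_primeFactors hp)
  have hct : ∀ p ∈ n.primeFactors, padicValNat p W + padicValNat p m = 2 * padicValNat p n := by
    intro p hp
    have : Fact p.Prime := ⟨hprime p hp⟩
    have h1 := congrArg (padicValNat p) hW
    rw [padicValNat.mul hW0 hm0, padicValNat.mul two_ne_zero (pow_ne_zero 2 hn0), padicValNat.pow,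
      padicValNat.eq_zero_of_not_dvd (n := 2), zero_add] at h1
    · exact h1
    · intro h
      exact hne2 p hp ((Nat.prime_dvd_prime_iff_eq (hprime p hp) Nat.prime_two).1 h)
  have hmem : ∀ p, p.Prime → p ≠ 2 → p ∣ W → p ∈ n.primeFactors := by
    intro p hp h2 h
    refine Nat.mem_primeFactors.2 ⟨hp, ?_, hn0⟩
    have h1 : p ∣ 2 * n ^ 2 := by
      rw [← hW]
      exact h.mul_right _
    rcases (Nat.Prime.dvd_mul hp).1 h1 with h3 | h3
    · exact absurd ((Nat.prime_dvd_prime_iff_eq hp Nat.prime_two).1 h3) h2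
    · exact hp.dvd_of_dvd_pow h3
  have hgeo : ∀ p ∈ n.primeFactors, (p - 1) * μ p * q ^ b p + 1 = p ^ (2 * padicValNat p n + 1) := by
    intro p hp
    rw [← geo (hprime p hp) (2 * padicValNat p n)]
    have h1 : sigma 1 (p ^ (2 * padicValNat p n)) = q ^ b p * μ p := hSe p hp
    rw [h1]
    ring
  have hmt : ∀ p ∈ n.primeFactors, μ p * p ^ padicValNat p m ≤ m := by
    intro p hp
    have h1 : μ p ∣ m := by
      rw [← hμprod]
      exact dvd_prod_of_mem μ hp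
    have h2 : Nat.Coprime (μ p) (p ^ padicValNat p m) := (hcop2 p hp).pow_right _
    exact Nat.le_of_dvd (Nat.pos_of_ne_zero hm0) (h2.mul_dvd_of_dvd_of_dvd h1 pow_padicValNat_dvd)
  set A2 := (q + 1).primeFactors.erase 2 with hA2
  set A3 := V.primeFactors.filter (fun p => p ≠ 2 ∧ ¬ p ∣ q + 1 ∧ ¬ p ∣ q - 1) with hA3
  have hA2n : ∀ p ∈ A2, p ∈ n.primeFactors ∧ p ∣ q + 1 := by
    intro p hp
    rw [hA2, mem_erase] at hp
    have h1 := Nat.dvd_of_mem_primeFactors hp.2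
    exact ⟨hmem p (Nat.prime_of_mem_primeFactors hp.2) hp.1 (h1.trans hqW), h1⟩
  have hA3n : ∀ p ∈ A3, p ∈ n.primeFactors ∧ p ∣ V ∧ ¬ p ∣ q + 1 ∧ ¬ p ∣ q - 1 := by
    intro p hp
    rw [hA3, mem_filter] at hp
    have h1 := Nat.dvd_of_mem_primeFactors hp.1
    exact ⟨hmem p (Nat.prime_of_mem_primeFactors hp.1) hp.2.1 (h1.trans hVW), h1, hp.2.2.1, hp.2.2.2⟩
  -- primes of `q + 1`
  have hb2 : ∀ p ∈ A2, p ^ padicValNat p (q + 1) ≤ 2 ^ b p * μ p := by
    intro p hp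
    obtain ⟨hpn, hpq⟩ := hA2n p hp
    have hpp := hprime p hpn
    have : Fact p.Prime := ⟨hpp⟩
    have hp2 := hne2 p hpn
    have hu1 : 1 ≤ padicValNat p (q + 1) := one_le_padicValNat_of_dvd (by omega) hpq
    have hval := val_sig (k := k) hpp hp2 hq hpq hk hK0
    rw [← hWdef] at hval
    have hct' := hct p hpn
    have hu : padicValNat p (q + 1) ≤ 2 * padicValNat p n := by omega
    have hg := hgeo p hpn
    rcases Nat.even_or_odd (b p) with he | ho
    · rcases Nat.eq_zero_or_pos (b p) with h0 | h0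
      · rw [h0, pow_zero, one_mul]
        have h1 := hSe p hpn
        rw [h0, pow_zero, one_mul] at h1
        rw [← h1]
        calc p ^ padicValNat p (q + 1) ≤ p ^ (2 * padicValNat p n) := Nat.pow_le_pow_right hpp.pos hu
          _ ≤ S p := le_sig (pow_ne_zero _ hpp.ne_zero)
      · exfalso
        apply hX
        have h2 : 2 ≤ b p := by
          obtain ⟨y, hy⟩ := he
          omega
        refine X2 (t := padicValNat p m) (c := padicValNat p W) hpp hp2 hq5 pow_padicValNat_dvd hu1 ?_ hu hg he h2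
          (Nat.pos_of_ne_zero (hμ0 p hpn)) hct' ?_ (hmt p hpn)
        · have h3 : Nat.Coprime 2 (p ^ padicValNat p (q + 1)) := by
            refine Nat.Coprime.pow_right _ ((Nat.Prime.coprime_iff_not_dvd Nat.prime_two).2 ?_)
            intro h
            exact hp2 ((Nat.prime_dvd_prime_iff_eq Nat.prime_two hpp).1 h).symm
          exact Nat.le_of_dvd (by omega) (h3.mul_dvd_of_dvd_of_dvd h2q pow_padicValNat_dvd)
        · rw [hval, pow_add]
          exact Nat.mul_le_mul_left _ (Nat.le_of_dvd (Nat.pos_of_ne_zero hK0) pow_padicValNat_dvd)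
    · have h1 := L2 hpp hp2 hu pow_padicValNat_dvd hg ho hu1 (Nat.pos_of_ne_zero (hμ0 p hpn))
      have h2 : 2 ≤ 2 ^ b p := by
        have : 1 ≤ b p := ho.pos
        calc 2 = 2 ^ 1 := rfl
          _ ≤ 2 ^ b p := Nat.pow_le_pow_right (by norm_num) this
      exact h1.trans (Nat.mul_le_mul_right _ h2)
  -- other primes
  have hb3 : ∀ p ∈ A3, (p ^ padicValNat p V) ^ 2 ≤ C ^ b p * μ p ^ (3 * d) := by
    intro p hp
    obtain ⟨hpn, hpV, h1, h2⟩ := hA3n p hp
    have hpW : p ∣ W := hpV.trans hVW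
    have hpp := hprime p hpn
    have : Fact p.Prime := ⟨hpp⟩
    have hp2 := hne2 p hpn
    have hc1 : 1 ≤ padicValNat p W := one_le_padicValNat_of_dvd hW0 hpW
    have hc2 : 1 ≤ padicValNat p V := one_le_padicValNat_of_dvd hV0 hpV
    have hc3 : padicValNat p V ≤ padicValNat p W :=
      (padicValNat_dvd_iff_le hW0).1 (pow_padicValNat_dvd.trans hVW)
    have hct' := hct p hpn
    have hg := hgeo p hpn
    rcases Nat.lt_or_ge (μ p) 2 with h3 | h3
    · exfalso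
      apply hX
      have h4 : μ p = 1 := by
        have := hμ0 p hpn
        omega
      rw [h4, mul_one] at hg
      have h5 := hmt p hpn
      rw [h4, one_mul] at h5
      exact X3 (c := padicValNat p W) hpp hp2 hq (by omega) h1 h2 hk hK0 rfl hc1 hct' hg h5
    · have h4 : p ^ padicValNat p V ∣ q ^ (2 * d) - 1 :=
        pow_padicValNat_dvd.trans ⟨q - 1, (W_eq hq hl).symm⟩
      rcases Nat.eq_zero_or_pos (b p) with h0 | h0
      · -- no power of `q`
        rw [h0, pow_zero, one_mul]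
        have h5 := hSe p hpn
        rw [h0, pow_zero, one_mul] at h5
        have h6 : p ^ padicValNat p V ≤ μ p := by
          rw [← h5]
          calc p ^ padicValNat p V ≤ p ^ (2 * padicValNat p n) := Nat.pow_le_pow_right hpp.pos (by omega)
            _ ≤ S p := le_sig (pow_ne_zero _ hpp.ne_zero)
        calc (p ^ padicValNat p V) ^ 2 ≤ μ p ^ 2 := Nat.pow_le_pow_left h6 2
          _ ≤ μ p ^ (3 * d) := Nat.pow_le_pow_right (by omega) (by omega)
      · have h5 := L4 hP0 hC hpp hp2 hd3 hdo (by omega) h4 (by omega) hc2 hg (hμodd p hpn) h3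
        refine h5.trans (Nat.mul_le_mul_right _ ?_)
        calc C = C ^ 1 := (pow_one C).symm
          _ ≤ C ^ b p := Nat.pow_le_pow_right hC1 h0
  -- the product over the primes of `q + 1`
  have hA2s : A2 ⊆ n.primeFactors := fun p hp => (hA2n p hp).1
  have hA3s : A3 ⊆ n.primeFactors := fun p hp => (hA3n p hp).1
  have e2 : 2 * ∏ p ∈ A2, p ^ padicValNat p (q + 1) = q + 1 := by
    have h1 := prod_eq (N := q + 1) (by omega)
    have h2 : 2 ∈ (q + 1).primeFactors := Nat.mem_primeFactors.2 ⟨Nat.prime_two, h2q, by omega⟩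
    have h3 : padicValNat 2 (q + 1) = 1 := by
      have a1 : 1 ≤ padicValNat 2 (q + 1) := one_le_padicValNat_of_dvd (by omega) h2q
      have a2 : ¬ 2 ≤ padicValNat 2 (q + 1) := by
        intro h
        have h4 : 2 ^ 2 ∣ q + 1 := (padicValNat_dvd_iff_le (by omega)).2 h
        norm_num at h4
        omega
      omega
    rw [← mul_prod_erase _ _ h2, h3, pow_one] at h1
    exact h1
  have hX2 : q + 1 ≤ 2 ^ (k + 1) * ∏ p ∈ A2, μ p := by
    have h1 : ∏ p ∈ A2, p ^ padicValNat p (q + 1) ≤ ∏ p ∈ A2, 2 ^ b p * μ p :=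
      prod_le_prod' hb2
    rw [prod_mul_distrib, prod_pow_eq_pow_sum] at h1
    have h2 : ∑ p ∈ A2, b p ≤ k := by
      rw [← hbsum]
      exact sum_le_sum_of_subset hA2s
    have h3 : 2 ^ (∑ p ∈ A2, b p) * ∏ p ∈ A2, μ p ≤ 2 ^ k * ∏ p ∈ A2, μ p :=
      Nat.mul_le_mul_right _ (Nat.pow_le_pow_right (by norm_num) h2)
    calc q + 1 = 2 * ∏ p ∈ A2, p ^ padicValNat p (q + 1) := e2.symm
      _ ≤ 2 * (2 ^ k * ∏ p ∈ A2, μ p) := Nat.mul_le_mul_left _ (h1.trans h3)
      _ = 2 ^ (k + 1) * ∏ p ∈ A2, μ p := by ring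
  -- the product over all primes of `W`
  have hW3 : V ≤ (q + 1) * d * ∏ p ∈ A3, p ^ padicValNat p V := by
    have hpr : ∀ p ∈ V.primeFactors, p.Prime := fun p hp => Nat.prime_of_mem_primeFactors hp
    have h1 : ∀ p ∈ V.primeFactors, p ^ padicValNat p V ≤
        (p ^ padicValNat p (q + 1) * p ^ padicValNat p d) *
          (if p ≠ 2 ∧ ¬ p ∣ q + 1 ∧ ¬ p ∣ q - 1 then p ^ padicValNat p V else 1) := by
      intro p hp
      have hpp := hpr p hp
      have g1 : 1 ≤ p ^ padicValNat p (q + 1) := Nat.one_le_pow _ _ hpp.pos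
      have g2 : 1 ≤ p ^ padicValNat p d := Nat.one_le_pow _ _ hpp.pos
      by_cases hc : p ≠ 2 ∧ ¬ p ∣ q + 1 ∧ ¬ p ∣ q - 1
      · rw [if_pos hc]
        exact Nat.le_mul_of_pos_left _ (Nat.mul_pos g1 g2)
      · rw [if_neg hc, mul_one]
        by_cases h2 : p = 2
        · subst h2
          have a1 : 1 ≤ padicValNat 2 (q + 1) := one_le_padicValNat_of_dvd (by omega) h2q
          have a2 : padicValNat 2 V ≤ 1 := by
            by_contra hcon
            push Not at hcon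
            have h4 : 2 ^ 2 ∣ W := ((padicValNat_dvd_iff_le hV0).2 hcon).trans hVW
            obtain ⟨w, hw⟩ := h4
            apply hn2o'
            refine ⟨w * m, ?_⟩
            rw [hw] at hW
            nlinarith
          calc 2 ^ padicValNat 2 V ≤ 2 ^ padicValNat 2 (q + 1) :=
                Nat.pow_le_pow_right (by norm_num) (by omega)
            _ ≤ 2 ^ padicValNat 2 (q + 1) * 2 ^ padicValNat 2 d := Nat.le_mul_of_pos_right _ g2
        · by_cases h3 : p ∣ q + 1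
          · have := val_sig (k := l) hpp h2 hq h3 hl hd0
            rw [← hVdef] at this
            rw [this, pow_add]
          · have h4 : p ∣ q - 1 := by
              by_contra h4
              exact hc ⟨h2, h3, h4⟩
            have := val_sig' (k := l) hpp h2 hq h4 hl hd0
            rw [← hVdef] at this
            rw [this]
            exact Nat.le_mul_of_pos_left _ g1
    calc V = ∏ p ∈ V.primeFactors, p ^ padicValNat p V := (prod_eq hV0).symm
      _ ≤ ∏ p ∈ V.primeFactors, (p ^ padicValNat p (q + 1) * p ^ padicValNat p d) *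
          (if p ≠ 2 ∧ ¬ p ∣ q + 1 ∧ ¬ p ∣ q - 1 then p ^ padicValNat p V else 1) := prod_le_prod' h1
      _ = (∏ p ∈ V.primeFactors, p ^ padicValNat p (q + 1)) * (∏ p ∈ V.primeFactors, p ^ padicValNat p d) *
          ∏ p ∈ A3, p ^ padicValNat p V := by
            rw [prod_mul_distrib, prod_mul_distrib, hA3, prod_filter]
      _ ≤ (q + 1) * d * ∏ p ∈ A3, p ^ padicValNat p V :=
            Nat.mul_le_mul_right _ (Nat.mul_le_mul (prod_le (by omega) _ hpr) (prod_le hd0 _ hpr))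
  have hWlow : q ^ (l - 1) * (q + 1) ≤ V := by
    have h1 : V * (q - 1) = q ^ (2 * d) - 1 := W_eq hq hl
    have h2 : q ^ (l - 1) * (q + 1) * (q - 1) ≤ V * (q - 1) := by
      have h3 : q ^ (l - 1) * (q + 1) * (q - 1) = q ^ (2 * d) - q ^ (l - 1) := by
        have h4 : (q + 1) * (q - 1) = q ^ 2 - 1 := by
          have := Nat.sq_sub_sq q 1
          simpa using this.symm
        rw [mul_assoc, h4, Nat.mul_sub, mul_one, ← pow_add]
        congr 2
        omega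
      rw [h3, h1]
      have : 1 ≤ q ^ (l - 1) := Nat.one_le_pow _ _ (by omega)
      omega
    exact Nat.le_of_mul_le_mul_right h2 (by omega)
  have hY : (q ^ (l - 1)) ^ 2 ≤ d ^ 2 * C ^ k * (∏ p ∈ A3, μ p) ^ (3 * d) := by
    have h1 : (∏ p ∈ A3, p ^ padicValNat p V) ^ 2 ≤ C ^ k * (∏ p ∈ A3, μ p) ^ (3 * d) := by
      have h2 : ∑ p ∈ A3, b p ≤ k := by
        rw [← hbsum]
        exact sum_le_sum_of_subset hA3s
      calc (∏ p ∈ A3, p ^ padicValNat p V) ^ 2 = ∏ p ∈ A3, (p ^ padicValNat p V) ^ 2 := (prod_pow _ _ _).symm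
        _ ≤ ∏ p ∈ A3, C ^ b p * μ p ^ (3 * d) := prod_le_prod' hb3
        _ = C ^ (∑ p ∈ A3, b p) * (∏ p ∈ A3, μ p) ^ (3 * d) := by
            rw [prod_mul_distrib, prod_pow_eq_pow_sum, prod_pow]
        _ ≤ C ^ k * (∏ p ∈ A3, μ p) ^ (3 * d) :=
            Nat.mul_le_mul_right _ (Nat.pow_le_pow_right hC1 h2)
    have h2 : q ^ (l - 1) * (q + 1) ≤ d * (∏ p ∈ A3, p ^ padicValNat p V) * (q + 1) := by
      calc q ^ (l - 1) * (q + 1) ≤ V := hWlow
        _ ≤ (q + 1) * d * ∏ p ∈ A3, p ^ padicValNat p V := hW3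
        _ = d * (∏ p ∈ A3, p ^ padicValNat p V) * (q + 1) := by ring
    have h3 : q ^ (l - 1) ≤ d * ∏ p ∈ A3, p ^ padicValNat p V := Nat.le_of_mul_le_mul_right h2 (by omega)
    calc (q ^ (l - 1)) ^ 2 ≤ (d * ∏ p ∈ A3, p ^ padicValNat p V) ^ 2 := Nat.pow_le_pow_left h3 2
      _ = d ^ 2 * (∏ p ∈ A3, p ^ padicValNat p V) ^ 2 := mul_pow _ _ _
      _ ≤ d ^ 2 * (C ^ k * (∏ p ∈ A3, μ p) ^ (3 * d)) := Nat.mul_le_mul_left _ h1
      _ = _ := by ring
  have hXY : (∏ p ∈ A2, μ p) * (∏ p ∈ A3, μ p) ≤ m := by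
    have hd : Disjoint A2 A3 := by
      rw [disjoint_left]
      intro p h1 h2
      exact (hA3n p h2).2.2.1 (hA2n p h1).2
    rw [← prod_union hd, ← hμprod]
    exact prod_le_prod_of_subset_of_one_le' (union_subset hA2s hA3s)
      (fun p hp _ => Nat.pos_of_ne_zero (hμ0 p hp))
  set X := ∏ p ∈ A2, μ p with hXdef
  set Y := ∏ p ∈ A3, μ p with hYdef
  have hl1 : 2 * (d - 1) = l - 1 := by omega
  calc q ^ (3 * d + 2 * (d - 1) * 2) = q ^ (3 * d) * (q ^ (l - 1)) ^ 2 := by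
        rw [hl1, pow_add, ← pow_mul]
    _ ≤ (2 ^ (k + 1) * X) ^ (3 * d) * (d ^ 2 * C ^ k * Y ^ (3 * d)) :=
        Nat.mul_le_mul (Nat.pow_le_pow_left (by omega) _) hY
    _ = d ^ 2 * C ^ k * (2 ^ (k + 1) * (X * Y)) ^ (3 * d) := by
        rw [mul_pow, mul_pow, mul_pow]; ring
    _ ≤ d ^ 2 * C ^ k * (2 ^ (k + 1) * m) ^ (3 * d) :=
        Nat.mul_le_mul_left _ (Nat.pow_le_pow_left (Nat.mul_le_mul_left _ hXY) _)

theorem m_bound_allF {q k n K m C P0 : ℕ} (hP0 : P0 = 2 * (3 * K) ^ (K - 1) + 1)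
    (hC : C = K ^ 2 * P0 ^ (2 * (K - 1))) (hK3 : 3 ≤ K) (hKo : Odd K) (hq : q.Prime) (hcop : Nat.Coprime q n) (hq4 : q % 4 = 1)
    (hk : k + 1 = 2 * K) (hn : Odd n) (hm0 : m ≠ 0)
    (hs : sigma 1 (n ^ 2) = q ^ k * m) (hW : sigma 1 (q ^ k) * m = 2 * n ^ 2) :
    q ^ 3 ≤ (C * (2 ^ (k + 1) * m)) ^ 2 := by
  have hC1 : 1 ≤ C := by
    rw [hC]
    exact Nat.mul_pos (by positivity) (pow_pos (by omega) _)
  have hKC : K ^ 2 ≤ C := by
    rw [hC]
    exact Nat.le_mul_of_pos_right _ (pow_pos (by omega) _)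
  have hq1 := hq.one_lt
  by_cases hX : 4 * q ^ 3 ≤ 9 * K ^ 2 * m ^ 2
  · have h1 : q ^ 3 ≤ (2 ^ (k + 1) * m) ^ 2 := by
      have h2 := four_pow_bound K (by omega)
      have h3 : (2 ^ (k + 1) * m) ^ 2 = 4 ^ (2 * K) * m ^ 2 := by
        rw [mul_pow, ← pow_mul, hk, mul_comm (2 * K) 2, pow_mul]
        norm_num
      rw [h3]
      have h4 : 4 * q ^ 3 ≤ 4 * (4 ^ (2 * K) * m ^ 2) := by
        calc 4 * q ^ 3 ≤ 9 * K ^ 2 * m ^ 2 := hX
          _ ≤ 4 * 4 ^ (2 * K) * m ^ 2 := Nat.mul_le_mul_right _ h2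
          _ = 4 * (4 ^ (2 * K) * m ^ 2) := by ring
      omega
    exact h1.trans (Nat.pow_le_pow_left (Nat.le_mul_of_pos_left _ hC1) 2)
  · have h := m_boundF hP0 hC hK3 hKo dvd_rfl hq hcop hq4 hk (by omega) hn hm0 hs hW hX
    set B := 2 ^ (k + 1) * m with hB
    -- raise to the power two
    have h1 : (q ^ 3) ^ (3 * K) ≤ ((C * B) ^ 2) ^ (3 * K) := by
      have e1 : q ^ (9 * K) ≤ (q ^ (3 * K + 2 * (K - 1) * 2)) ^ 2 := by
        rw [← pow_mul]
        exact Nat.pow_le_pow_right (by omega) (by omega)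
      have e2 : K ^ 2 * C ^ k ≤ C ^ (2 * K) := by
        calc K ^ 2 * C ^ k ≤ C * C ^ k := Nat.mul_le_mul_right _ hKC
          _ = C ^ (2 * K) := by rw [← pow_succ', hk]
      calc (q ^ 3) ^ (3 * K) = q ^ (9 * K) := by rw [← pow_mul]; congr 1; ring
        _ ≤ (q ^ (3 * K + 2 * (K - 1) * 2)) ^ 2 := e1
        _ ≤ (K ^ 2 * C ^ k * B ^ (3 * K)) ^ 2 := Nat.pow_le_pow_left h 2
        _ ≤ (C ^ (2 * K) * B ^ (3 * K)) ^ 2 := Nat.pow_le_pow_left (Nat.mul_le_mul_right _ e2) 2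
        _ ≤ (C ^ (3 * K) * B ^ (3 * K)) ^ 2 :=
            Nat.pow_le_pow_left (Nat.mul_le_mul_right _ (Nat.pow_le_pow_right hC1 (by omega))) 2
        _ = ((C * B) ^ 2) ^ (3 * K) := by
            rw [← mul_pow, ← pow_mul, ← pow_mul, mul_comm (3 * K) 2]
    exact (Nat.pow_le_pow_iff_left (by omega)).1 h1

/-- the main theorem -/
theorem mainF {q k n K C P0 : ℕ} (hP0 : P0 = 2 * (3 * K) ^ (K - 1) + 1)
    (hC : C = K ^ 2 * P0 ^ (2 * (K - 1))) (hK3 : 3 ≤ K) (hKo : Odd K) (hodd : Odd (q ^ k * n ^ 2)) (hperf : Nat.Perfect (q ^ k * n ^ 2))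
    (hq : q.Prime) (hcop : Nat.Coprime q n) (hq4 : q % 4 = 1) (hk : k + 1 = 2 * K) :
    q ^ (2 * k + 3) ≤ (C * 2 ^ (k + 2) * n ^ 2) ^ 2 := by
  obtain ⟨m, hm0, hs, hW⟩ := setup hodd hperf hq hcop
  have hn : Odd n := by
    have := (Nat.odd_mul.1 hodd).2
    exact Nat.Odd.of_mul_left (by rwa [sq] at this)
  have h1 := m_bound_allF hP0 hC hK3 hKo hq hcop hq4 hk hn hm0 hs hW
  have h2 : q ^ k * m ≤ 2 * n ^ 2 := by
    rw [← hW]
    exact Nat.mul_le_mul_right _ (le_sig (pow_ne_zero _ hq.ne_zero))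
  calc q ^ (2 * k + 3) = (q ^ k) ^ 2 * q ^ 3 := by
        rw [← pow_mul, ← pow_add]; congr 1; ring
    _ ≤ (q ^ k) ^ 2 * (C * (2 ^ (k + 1) * m)) ^ 2 := Nat.mul_le_mul_left _ h1
    _ = (C * (2 ^ (k + 1) * (q ^ k * m))) ^ 2 := by
        rw [mul_pow, mul_pow, mul_pow, mul_pow, mul_pow]; ring
    _ ≤ (C * (2 ^ (k + 1) * (2 * n ^ 2))) ^ 2 :=
        Nat.pow_le_pow_left (Nat.mul_le_mul_left _ (Nat.mul_le_mul_left _ h2)) 2
    _ = (C * 2 ^ (k + 2) * n ^ 2) ^ 2 := by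
        congr 1; ring

end Pool.Agent.H76F
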